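import Pool.Agent.H5.EG.Spec2

/-!
# Character sum for even subgraphs (`S_graphB` of the project EG of helper5)
-/

set_option autoImplicit false

namespace Pool.Agent.H653.EG

open Pool.Agent.H5.EG Finset

/-- the sign of an edge -/
noncomputable def sg {m r : ℕ} (T : Finset (Fin m)) (e : (Fin m × Fin m) × Fin r) :
    Polynomial ℤ :=
  (if e.1.1 ∈ T then -1 else 1) * (if e.1.2 ∈ T then -1 else 1)

/-- all edges -/
def PP (m r : ℕ) : Finset ((Fin m × Fin m) × Fin r) :=
  Finset.univ.filter fun e => e.1.1 < e.1.2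

theorem prod_sg {m r : ℕ} (T : Finset (Fin m)) (S : Finset ((Fin m × Fin m) × Fin r))
    (hS : S ⊆ PP m r) :
    ∏ a ∈ T, (-1 : Polynomial ℤ) ^ (S.filter fun e => e.1.1 = a ∨ e.1.2 = a).card =
      ∏ e ∈ S, sg T e := by
  have h1 : ∀ a, (-1 : Polynomial ℤ) ^ (S.filter fun e => e.1.1 = a ∨ e.1.2 = a).card =
      ∏ e ∈ S, if e.1.1 = a ∨ e.1.2 = a then -1 else 1 := by
    intro a
    rw [Finset.prod_ite, Finset.prod_const, Finset.prod_const_one, mul_one]
  simp only [h1]
  rw [Finset.prod_comm]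
  apply Finset.prod_congr rfl
  intro e he
  have hne : e.1.1 ≠ e.1.2 := (Finset.mem_filter.1 (hS he)).2.ne
  have h2 : ∀ a, (if e.1.1 = a ∨ e.1.2 = a then (-1 : Polynomial ℤ) else 1) =
      (if e.1.1 = a then -1 else 1) * (if e.1.2 = a then -1 else 1) := by
    intro a
    by_cases ha : e.1.1 = a
    · have hb : e.1.2 ≠ a := fun h => hne (ha.trans h.symm)
      rw [if_pos (Or.inl ha), if_pos ha, if_neg hb, mul_one]
    · by_cases hb : e.1.2 = a
      · rw [if_pos (Or.inr hb), if_neg ha, if_pos hb, one_mul]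
      · rw [if_neg (not_or.2 ⟨ha, hb⟩), if_neg ha, if_neg hb, one_mul]
  simp only [h2]
  rw [Finset.prod_mul_distrib, Finset.prod_ite_eq, Finset.prod_ite_eq]
  rfl

theorem sum_T {m r : ℕ} (S : Finset ((Fin m × Fin m) × Fin r)) (hS : S ⊆ PP m r) :
    ∑ T : Finset (Fin m), ∏ e ∈ S, sg T e =
      if (∀ a : Fin m, Even (S.filter fun e => e.1.1 = a ∨ e.1.2 = a).card) then 2 ^ m else 0 := by
  calc ∑ T : Finset (Fin m), ∏ e ∈ S, sg T e
      = ∑ T ∈ (univ : Finset (Fin m)).powerset, ∏ a ∈ T,
          (-1 : Polynomial ℤ) ^ (S.filter fun e => e.1.1 = a ∨ e.1.2 = a).card := by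
        rw [Finset.powerset_univ]
        exact Finset.sum_congr rfl fun T _ => (prod_sg T S hS).symm
    _ = ∏ a, (1 + (-1 : Polynomial ℤ) ^ (S.filter fun e => e.1.1 = a ∨ e.1.2 = a).card) :=
        (Finset.prod_one_add _).symm
    _ = _ := by
        split_ifs with h
        · have h3 : ∀ a ∈ (univ : Finset (Fin m)),
              (1 + (-1 : Polynomial ℤ) ^ (S.filter fun e => e.1.1 = a ∨ e.1.2 = a).card) = 2 := by
            intro a _
            rw [(h a).neg_one_pow]
            norm_num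
          rw [Finset.prod_congr rfl h3, Finset.prod_const, Finset.card_univ, Fintype.card_fin]
        · push Not at h
          obtain ⟨a, ha⟩ := h
          apply Finset.prod_eq_zero (Finset.mem_univ a)
          have ha' : Odd (S.filter fun e => e.1.1 = a ∨ e.1.2 = a).card := by
            rw [← Nat.not_even_iff_odd]
            exact ha
          rw [ha'.neg_one_pow]
          ring

/-- pairs `a < b` -/
def PL (m : ℕ) : Finset (Fin m × Fin m) := Finset.univ.filter fun e => e.1 < e.2

theorem card_PL (m : ℕ) : (PL m).card = m.choose 2 := by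
  have h : (PL m).card = ∑ b : Fin m, (b : ℕ) := by
    unfold PL
    rw [Finset.card_filter, Fintype.sum_prod_type_right]
    apply Finset.sum_congr rfl
    intro b _
    rw [← Finset.card_filter]
    have : (Finset.univ.filter fun a : Fin m => a < b) = Finset.Iio b := by
      ext a; simp
    rw [this, Fin.card_Iio]
  rw [h, Fin.sum_univ_eq_sum_range (fun i => i) m, Finset.sum_range_id, Nat.choose_two_right]

/-- pairs `a < b` with exactly one element in `T` -/
def PN {m : ℕ} (T : Finset (Fin m)) : Finset (Fin m × Fin m) :=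
  (PL m).filter fun e => ¬ (e.1 ∈ T ↔ e.2 ∈ T)

theorem card_PN {m : ℕ} (T : Finset (Fin m)) : (PN T).card = T.card * (m - T.card) := by
  have h1 : (T ×ˢ Tᶜ).card = T.card * (m - T.card) := by
    rw [Finset.card_product, Finset.card_compl, Fintype.card_fin]
  rw [← h1, ← Finset.card_filter_add_card_filter_not (s := T ×ˢ Tᶜ) (fun e => e.1 < e.2),
    ← Finset.card_filter_add_card_filter_not (s := PN T) (fun e => e.1 ∈ T)]
  congr 1
  · congr 1
    ext ⟨a, b⟩
    simp only [PN, PL, Finset.mem_filter, Finset.mem_univ, true_and, Finset.mem_product,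
      Finset.mem_compl]
    tauto
  · refine Finset.card_bij' (fun e _ => (e.2, e.1)) (fun e _ => (e.2, e.1)) ?_ ?_ ?_ ?_
    · rintro ⟨a, b⟩ h
      simp only [PN, PL, Finset.mem_filter, Finset.mem_univ, true_and, Finset.mem_product,
        Finset.mem_compl] at h ⊢
      exact ⟨by tauto, not_lt.2 h.1.1.le⟩
    · rintro ⟨a, b⟩ h
      simp only [PN, PL, Finset.mem_filter, Finset.mem_univ, true_and, Finset.mem_product,
        Finset.mem_compl] at h ⊢
      have hne : b ≠ a := by
        rintro rfl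
        exact h.1.2 h.1.1
      have hlt : b < a := lt_of_le_of_ne (not_lt.1 h.2) hne
      tauto
    · rintro ⟨a, b⟩ _
      rfl
    · rintro ⟨a, b⟩ _
      rfl

theorem prod_edges {m r : ℕ} (T : Finset (Fin m)) (y : Polynomial ℤ) :
    ∏ e ∈ PP m r, (1 + sg T e * y) =
      (1 + y) ^ (r * (m.choose 2 - T.card * (m - T.card))) *
        (1 - y) ^ (r * (T.card * (m - T.card))) := by
  have h1 : PP m r = PL m ×ˢ (univ : Finset (Fin r)) := by
    ext ⟨⟨a, b⟩, d⟩
    simp [PP, PL]
  have h2 : ∏ e ∈ PP m r, (1 + sg T e * y) =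
      (∏ e ∈ PL m, if ¬ (e.1 ∈ T ↔ e.2 ∈ T) then (1 - y) else (1 + y)) ^ r := by
    rw [h1, Finset.prod_product, ← Finset.prod_pow]
    apply Finset.prod_congr rfl
    rintro ⟨a, b⟩ _
    have h3 : ∀ d ∈ (univ : Finset (Fin r)), (1 + sg T (((a, b), d) : (Fin m × Fin m) × Fin r) * y) =
        if ¬ (a ∈ T ↔ b ∈ T) then (1 - y) else (1 + y) := by
      intro d _
      unfold sg
      by_cases ha : a ∈ T <;> by_cases hb : b ∈ T <;> simp [ha, hb, sub_eq_add_neg]
    rw [Finset.prod_congr rfl h3, Finset.prod_const, Finset.card_univ, Fintype.card_fin]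
  have h4 : ((PL m).filter fun e => ¬ ¬ (e.1 ∈ T ↔ e.2 ∈ T)).card =
      m.choose 2 - T.card * (m - T.card) := by
    have h5 := Finset.card_filter_add_card_filter_not (s := PL m) (fun e => ¬ (e.1 ∈ T ↔ e.2 ∈ T))
    have h6 : ((PL m).filter fun e => ¬ (e.1 ∈ T ↔ e.2 ∈ T)).card = T.card * (m - T.card) :=
      card_PN T
    rw [card_PL, h6] at h5
    omega
  have h6 : ((PL m).filter fun e => ¬ (e.1 ∈ T ↔ e.2 ∈ T)).card = T.card * (m - T.card) :=
    card_PN T
  rw [h2, Finset.prod_ite, Finset.prod_const, Finset.prod_const, h6, h4, mul_pow, ← pow_mul,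
    ← pow_mul, mul_comm r, mul_comm r, mul_comm]

theorem graphB : S_graphB := by
  intro m r y
  have hE : evenSets m r = (PP m r).powerset.filter
    fun S => ∀ a : Fin m, Even (S.filter fun e => e.1.1 = a ∨ e.1.2 = a).card := rfl
  rw [hE, Finset.sum_filter, Finset.mul_sum]
  have h1 : ∀ S ∈ (PP m r).powerset, (2 : Polynomial ℤ) ^ m *
      (if (∀ a : Fin m, Even (S.filter fun e => e.1.1 = a ∨ e.1.2 = a).card) then y ^ S.card
        else 0) = ∑ T : Finset (Fin m), ∏ e ∈ S, (sg T e * y) := by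
    intro S hS
    have h2 := sum_T S (Finset.mem_powerset.1 hS)
    simp only [Finset.prod_mul_distrib, Finset.prod_const]
    rw [← Finset.sum_mul, h2]
    split_ifs
    · rfl
    · rw [mul_zero, zero_mul]
  rw [Finset.sum_congr rfl h1, Finset.sum_comm]
  simp only [← Finset.prod_one_add, prod_edges]
  rw [← Finset.powerset_univ, Finset.sum_powerset_apply_card (fun k =>
    (1 + y) ^ (r * (m.choose 2 - k * (m - k))) * (1 - y) ^ (r * (k * (m - k))))]
  rw [Finset.card_univ, Fintype.card_fin]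
  apply Finset.sum_congr rfl
  intro k _
  rw [nsmul_eq_mul]

end Pool.Agent.H653.EG
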